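import Pool.Agent.PVD.StmtsM2

/-! MP_e25c73_gt, block M, row HPO: positivity of the limit support numbers (helper45). -/

set_option autoImplicit false
open MeasureTheory Filter Topology Set

namespace Pool.Agent.PVD.M.H45

open Pool.Agent.PVD.L

theorem cl_pos {e t : ℝ} (h0 : 0 < e) (h1 : e < 1) (ht0 : 0 < t) (ht1 : t < 1) (i : Fin 4) :
    0 < cl e i t := by
  fin_cases i
  · show 0 < 1 - t
    linarith
  · show 0 < t
    exact ht0
  · show 0 < min t e - e * t
    rcases le_total t e with h | h
    · rw [min_eq_left h]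
      have := mul_pos ht0 (sub_pos.2 h1)
      linarith
    · rw [min_eq_right h]
      have := mul_pos h0 (sub_pos.2 ht1)
      linarith
  · show 0 < min t (1 - e) - (1 - e) * t
    rcases le_total t (1 - e) with h | h
    · rw [min_eq_left h]
      have := mul_pos ht0 h0
      linarith
    · rw [min_eq_right h]
      have := mul_pos (sub_pos.2 h1) (sub_pos.2 ht1)
      linarith

theorem hpo : HpoStmt := by
  intro k hk A hA mu hmu i hi
  have hk0 : (128 : ℝ) < (k : ℝ) := by exact_mod_cast hk
  have he0 : 0 < 1 / (k : ℝ) := by positivity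
  have he1 : 1 / (k : ℝ) < 1 := by
    rw [div_lt_one (by linarith)]
    linarith
  generalize 1 / (k : ℝ) = e at he0 he1
  have h1A : (1 : Fin 4) ∈ A := by
    rcases hA with rfl | rfl
    · unfold AK
      decide
    · unfold AL
      decide
  have hmu0 : ∀ j, 0 ≤ mu j := by
    intro j
    by_cases hj : j ∈ A
    · exact (hmu.1 j hj).le
    · exact (hmu.2 j hj).ge
  have hterm : ∀ t, 0 ≤ t → t ≤ 1 → ∀ j, mu j * cl e j t ≤ fm e mu t := by
    intro t ht0 ht1 j
    unfold fm
    exact Finset.single_le_sum (f := fun j => mu j * cl e j t)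
      (fun j _ => mul_nonneg (hmu0 j) (cl_nonneg he0 he1 ht0 ht1 j)) (Finset.mem_univ j)
  have hmi : 0 < mu i := hmu.1 i hi
  have hpos : ∀ t ∈ Ioo (0:ℝ) 1, 0 < cl e i t / fm e mu t := by
    intro t ht
    apply div_pos (cl_pos he0 he1 ht.1 ht.2 i)
    refine lt_of_lt_of_le ?_ (hterm t ht.1.le ht.2.le 1)
    exact mul_pos (hmu.1 1 h1A) (cl_pos he0 he1 ht.1 ht.2 1)
  unfold Hm
  refine intervalIntegral.intervalIntegral_pos_of_pos_on ?_ hpos one_pos
  rw [intervalIntegrable_iff, uIoc_of_le zero_le_one]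
  have hmeas : Measurable fun t => cl e i t / fm e mu t :=
    (cl_cont e i).measurable.div (fm_cont e mu).measurable
  refine Measure.integrableOn_of_bounded (M := 1 / mu i) (by simp) hmeas.aestronglyMeasurable ?_
  rw [ae_restrict_iff' measurableSet_Ioc]
  refine Eventually.of_forall fun t ht => ?_
  have hc := cl_nonneg he0 he1 ht.1.le ht.2 i
  have hf : 0 ≤ fm e mu t := (mul_nonneg hmi.le hc).trans (hterm t ht.1.le ht.2 i)
  rw [Real.norm_of_nonneg (div_nonneg hc hf)]
  rcases hf.eq_or_lt with h | h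
  · rw [← h, div_zero]
    positivity
  · rw [div_le_div_iff₀ h hmi, one_mul, mul_comm]
    exact hterm t ht.1.le ht.2 i

end Pool.Agent.PVD.M.H45
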